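import Pool.Agent.Zk89.KB.Main

/-!
# Kolmogorov actions: all affine forms
-/

set_option autoImplicit false
set_option linter.unusedSectionVars false

open MeasureTheory Filter Topology
open scoped ENNReal

noncomputable section

namespace Pool.Agent.Zk89.KB

open Pool.Agent.W761.Box (bx bxc BM Good1 bxc_add bxc_sub bxc_mul dz orb good1 Cv)
open Pool.Agent.TH784.KE
open Pool.Agent.W761.Gauss (IsFactor BM_of_memLp inter_prod mp_prod)

section

variable {X : Type*} {mA mX : MeasurableSpace X} {μ : Measure X} [IsProbabilityMeasure μ]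
variable {G : Type*} [Group G]
variable {Φ : G →* Equiv.Perm X} {ℓ : G → ℝ}
variable {J : Type*} [DecidableEq J] [Fintype J] {k : ℕ}

theorem el_one_one (n : Fin k → ℕ) : el (1 : G) (fun _ => 1) n = 1 := by
  unfold el
  rw [one_mul]
  induction k with
  | zero => simp
  | succ k ih =>
    rw [List.ofFn_succ, List.prod_cons, ih (fun l => n l.succ), one_pow, one_mul]

theorem el_split (c : G) (a : Fin k → G) (n : Fin k → ℕ) : el c a n = c * el 1 a n := by
  unfold el
  rw [one_mul]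

/-- Kolmogorov actions: arbitrary forms. -/
theorem conv_all (hK : KExt μ mA ⊥ Φ ℓ) (hinj : ∀ g : G, ℓ g = 0 → g = 1)
    (c : J → G) (a : J → Fin k → G) {F : J → X → ℂ} (hF : ∀ v, @BM X mX (F v)) :
    ∀ᵐ x ∂μ, ∃ L, Tendsto (fun N => bxc k N fun n => ∏ j, F j (Φ (el (c j) (a j) n) x)) atTop
      (𝓝 L) := by
  classical
  set A : Finset (Fin k → G) := Finset.univ.image a with hA
  let H : (Fin k → G) → X → ℂ := fun α y => ∏ j with a j = α, F j (Φ (c j) y)
  have hH : ∀ α, @BM X mX (H α) := by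
    intro α
    choose hm C hC using hF
    refine ⟨Finset.measurable_fun_prod _ fun j _ => (hm j).comp (hK.fl (c j)).measurable,
      ∏ j with a j = α, |C j|, fun x => ?_⟩
    show ‖∏ j with a j = α, F j (Φ (c j) x)‖ ≤ _
    rw [norm_prod]
    exact Finset.prod_le_prod (fun j _ => norm_nonneg _) fun j _ =>
      (hC j _).trans (le_abs_self _)
  have hgroup : ∀ (n : Fin k → ℕ) (x : X), ∏ j, F j (Φ (el (c j) (a j) n) x) =
      ∏ α ∈ A, H α (Φ (el 1 α n) x) := by
    intro n x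
    rw [← Finset.prod_fiberwise_of_maps_to
      (fun j _ => Finset.mem_image_of_mem a (Finset.mem_univ j) : ∀ j ∈ Finset.univ, a j ∈ A)]
    refine Finset.prod_congr rfl fun α _ => ?_
    show _ = ∏ j with a j = α, F j (Φ (c j) (Φ (el 1 α n) x))
    refine Finset.prod_congr rfl fun j hj => ?_
    rw [el_split, map_mul, Equiv.Perm.mul_apply, (Finset.mem_filter.1 hj).2]
  have hmain := conv_tr (μ := μ) hK hinj (J := {α // α ∈ A.erase (fun _ => 1)})
    (fun _ => 1) (fun α => α.1)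
    (fun α => by
      have h1 : α.1 ≠ fun _ => 1 := Finset.ne_of_mem_erase α.2
      obtain ⟨l, hl⟩ := Function.ne_iff.1 h1
      exact ⟨l, hl⟩)
    (fun α β hαβ => by
      have h1 : α.1 ≠ β.1 := fun h => hαβ (Subtype.ext h)
      obtain ⟨l, hl⟩ := Function.ne_iff.1 h1
      exact ⟨l, hl⟩) (F := fun α => H α.1) (fun α => hH α.1)
  have hcoe : ∀ (n : Fin k → ℕ) (x : X),
      ∏ j : {α // α ∈ A.erase (fun _ => 1)}, H j.1 (Φ (el 1 j.1 n) x) =
      ∏ α ∈ A.erase (fun _ => 1), H α (Φ (el 1 α n) x) := fun n x =>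
    Finset.prod_coe_sort (A.erase (fun _ => 1)) (fun α => H α (Φ (el 1 α n) x))
  filter_upwards [hmain] with x hx
  by_cases h1 : (fun _ => 1 : Fin k → G) ∈ A
  · refine ⟨H (fun _ => 1) x * _, (hx.const_mul (H (fun _ => 1) x)).congr fun N => ?_⟩
    rw [← bxc_mul]
    congr 1
    funext n
    rw [hgroup, ← Finset.mul_prod_erase _ _ h1, el_one_one, map_one, Equiv.Perm.one_apply,
      hcoe]
  · refine ⟨_, hx.congr fun N => ?_⟩
    congr 1
    funext n
    rw [hgroup, hcoe, Finset.erase_eq_of_notMem h1]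

end

/-- Kolmogorov actions as extensions of the trivial factor -/
theorem kext_bot {X G : Type*} {mA mX : MeasurableSpace X} {μ : Measure X}
    [IsProbabilityMeasure μ] [Group G] {Φ : G →* Equiv.Perm X} {ℓ : G → ℝ}
    (hΦ : ∀ g, MeasurePreserving (Φ g) μ μ) (hℓ : ∀ g h, ℓ (g * h) = ℓ g + ℓ h)
    (h𝒜 : mA ≤ mX) (hmono : ∀ g, ℓ g ≤ 0 → mA.comap (Φ g : X → X) ≤ mA)
    (hgen : ∀ B, MeasurableSet[mX] B →
      ∃ B', MeasurableSet[⨆ g, mA.comap (Φ g : X → X)] B' ∧ B =ᵐ[μ] B')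
    (htail : ∀ B, (∀ g, MeasurableSet[mA.comap (Φ g : X → X)] B) → μ B = 0 ∨ μ B = 1) :
    KExt μ mA ⊥ Φ ℓ := by
  refine ⟨hΦ, ⟨hℓ, h𝒜, hmono⟩, ⟨bot_le, fun a => ?_⟩, hgen, fun B hB => ?_⟩
  · intro B hB
    rcases (MeasurableSpace.measurableSet_bot_iff.1 hB) with h | h
    · rw [h, Set.preimage_empty]
      exact @MeasurableSet.empty X ⊥
    · rw [h, Set.preimage_univ]
      exact @MeasurableSet.univ X ⊥
  · rcases htail B hB with h | h
    · exact ⟨∅, @MeasurableSet.empty X ⊥, ae_eq_empty.2 h⟩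
    · refine ⟨Set.univ, @MeasurableSet.univ X ⊥, ?_⟩
      have hBm : MeasurableSet[mX] B := by
        obtain ⟨B', hB', e⟩ := hB 1
        rw [← e]
        exact (hΦ 1).measurable (h𝒜 _ hB')
      exact ae_eq_univ.2 ((prob_compl_eq_zero_iff hBm).2 h)

section fac

variable {X Y G : Type} [CommGroup G] {mA : MeasurableSpace X} [mX : MeasurableSpace X]
  [MeasurableSpace Y] {μ : Measure X} [IsProbabilityMeasure μ] {ν : Measure Y}
  {Φ : G →* Equiv.Perm X} {ℓ : G → ℝ} {d k n : ℕ}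

theorem perm_prod (g : Fin d → G) (e : Fin d → ℤ) :
    (List.ofFn fun i => Φ (g i) ^ e i).prod = Φ (∏ i, g i ^ e i) := by
  rw [← List.prod_ofFn, map_list_prod, List.map_ofFn]
  congr 2
  funext i
  rw [Function.comp_apply, map_zpow]

theorem zpow_sum' {ι : Type*} (x : G) (s : Finset ι) (e : ι → ℤ) :
    x ^ (∑ l ∈ s, e l) = ∏ l ∈ s, x ^ e l := by
  classical
  induction s using Finset.induction_on with
  | empty => simp
  | insert i s hi ih => rw [Finset.sum_insert hi, Finset.prod_insert hi, zpow_add, ih]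

theorem prod_el (g : Fin d → G) (c : Fin d → ℤ) (a : Fin d → Fin k → ℤ) (m : Fin k → ℕ) :
    ∏ i, g i ^ (c i + ∑ l, (m l : ℤ) * a i l) =
      el (∏ i, g i ^ c i) (fun l => ∏ i, g i ^ a i l) m := by
  unfold el
  rw [List.prod_ofFn]
  have h1 : ∀ l, (∏ i, g i ^ a i l) ^ m l = ∏ i, g i ^ ((m l : ℤ) * a i l) := by
    intro l
    rw [← Finset.prod_pow]
    refine Finset.prod_congr rfl fun i _ => ?_
    rw [mul_comm, zpow_mul, zpow_natCast]
  simp only [h1]
  rw [Finset.prod_comm, ← Finset.prod_mul_distrib]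
  refine Finset.prod_congr rfl fun i _ => ?_
  rw [zpow_add, zpow_sum']

theorem poly_el (g : Fin d → G) (P : Fin d → MvPolynomial (Fin k) ℤ)
    (hP : ∀ i, (P i).totalDegree ≤ 1) (m : Fin k → ℕ) :
    ∏ i, g i ^ (MvPolynomial.eval (fun l => ((m l : ℕ) : ℤ)) (P i)) =
      el (∏ i, g i ^ MvPolynomial.coeff 0 (P i))
        (fun l => ∏ i, g i ^ MvPolynomial.coeff (Finsupp.single l 1) (P i)) m := by
  rw [← prod_el]
  refine Finset.prod_congr rfl fun i _ => ?_
  rw [← Pool.Agent.W761.Box.eval_affine _ (hP _)]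

/-- limits which are constants pass to factors -/
theorem factor_const {T : Fin d → Equiv.Perm X}
    (hTm : ∀ i, MeasurePreserving (T i) μ μ)
    (hT' : ∀ i, MeasurePreserving ((T i)⁻¹ : Equiv.Perm X) μ μ) {R : Fin d → Equiv.Perm Y}
    (hRm : ∀ i, Measurable (R i).symm) (hR : ∀ i, MeasurePreserving (R i) ν ν)
    (hfac : IsFactor μ T ν R) (E : (Fin k → ℕ) → Fin d → Fin n → ℤ)
    (hconv : ∀ f : Fin n → X → ℂ, (∀ j, BM (f j)) → ∀ᵐ x ∂μ,
      Tendsto (fun N => bxc k N fun m => ∏ j, f j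
        ((List.ofFn fun i : Fin d => T i ^ E m i j).prod x)) atTop (𝓝 (∏ j, ∫ x, f j x ∂μ)))
    {f : Fin n → Y → ℂ} (hf : ∀ j, MemLp (f j) ∞ ν) :
    ∀ᵐ y ∂ν, Tendsto (fun N => bxc k N fun m => ∏ j, f j
      ((List.ofFn fun i : Fin d => R i ^ E m i j).prod y)) atTop (𝓝 (∏ j, ∫ y, f j y ∂ν)) := by
  obtain ⟨π, hπ, hπT⟩ := hfac
  have hR' : ∀ i, MeasurePreserving ((R i)⁻¹ : Equiv.Perm Y) ν ν := by
    intro i
    let e : Y ≃ᵐ Y := ⟨R i, (hR i).measurable, hRm i⟩
    exact (hR i).symm e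
  choose g hg hfg using fun j => BM_of_memLp (hf j)
  have h1 := hconv (fun j => g j ∘ π) fun j => by
    obtain ⟨gm, C, hC⟩ := hg j
    exact ⟨gm.comp hπ.measurable, C, fun x => hC _⟩
  have hint : ∀ j, ∫ x, (g j ∘ π) x ∂μ = ∫ y, f j y ∂ν := by
    intro j
    rw [integral_congr_ae (hfg j), ← hπ.map_eq]
    exact (integral_map hπ.measurable.aemeasurable (hg j).1.aestronglyMeasurable).symm
  simp only [hint] at h1
  obtain ⟨c, hc⟩ : ∃ c : ℂ, c = ∏ j, ∫ y, f j y ∂ν := ⟨_, rfl⟩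
  rw [← hc] at h1 ⊢
  have h2 : ∀ᵐ x ∂μ, ∀ (m : Fin k → ℕ) (j : Fin n),
      π ((List.ofFn fun i : Fin d => T i ^ E m i j).prod x) =
      (List.ofFn fun i : Fin d => R i ^ E m i j).prod (π x) := by
    rw [ae_all_iff]
    intro m
    rw [ae_all_iff]
    intro j
    exact inter_prod hTm hT' hπT _
  have hgR : ∀ (m : Fin k → ℕ), Measurable fun y => ∏ j, g j
      ((List.ofFn fun i : Fin d => R i ^ E m i j).prod y) := by
    intro m
    apply Finset.measurable_fun_prod
    intro j _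
    exact (hg j).1.comp (mp_prod hR hR' _).measurable
  have hms : MeasurableSet {y | Tendsto (fun N => bxc k N fun m => ∏ j, g j
      ((List.ofFn fun i : Fin d => R i ^ E m i j).prod y)) atTop
        (𝓝 ((fun _ : Y => c) y))} := by
    apply measurableSet_tendsto_fun
    · intro N
      unfold Pool.Agent.W761.Box.bxc
      exact (Finset.measurable_fun_sum _ fun n _ => hgR n).const_mul _
    · exact measurable_const
  have h3 : ∀ᵐ x ∂μ, π x ∈ {y | Tendsto (fun N => bxc k N fun m => ∏ j, g j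
      ((List.ofFn fun i : Fin d => R i ^ E m i j).prod y)) atTop
        (𝓝 ((fun _ : Y => c) y))} := by
    filter_upwards [h1, h2] with x hx1 hx2
    refine hx1.congr fun N => ?_
    congr 1
    funext m
    apply Finset.prod_congr rfl
    intro j _
    rw [Function.comp_apply, hx2]
  have h4 : ∀ᵐ y ∂ν, y ∈ {y | Tendsto (fun N => bxc k N fun m => ∏ j, g j
      ((List.ofFn fun i : Fin d => R i ^ E m i j).prod y)) atTop
        (𝓝 ((fun _ : Y => c) y))} := by
    rw [← hπ.map_eq]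
    exact (ae_map_iff hπ.measurable.aemeasurable hms).mpr h3
  have h5 : ∀ᵐ y ∂ν, ∀ (m : Fin k → ℕ) (j : Fin n),
      f j ((List.ofFn fun i : Fin d => R i ^ E m i j).prod y) =
      g j ((List.ofFn fun i : Fin d => R i ^ E m i j).prod y) := by
    rw [ae_all_iff]
    intro m
    rw [ae_all_iff]
    intro j
    exact (mp_prod hR hR' _).quasiMeasurePreserving.ae (hfg j)
  filter_upwards [h4, h5] with y hy4 hy5
  refine Tendsto.congr (fun N => ?_) hy4
  congr 1
  funext m
  apply Finset.prod_congr rfl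
  intro j _
  rw [hy5]

/-- **Part 1.** Kolmogorov actions and their factors. -/
theorem part1 (hK : KExt μ mA ⊥ Φ ℓ) (hinj : ∀ g : G, ℓ g = 0 → g = 1) (g : Fin d → G)
    {R : Fin d → Equiv.Perm Y} (hRm : ∀ i, Measurable (R i).symm)
    (hR : ∀ i, MeasurePreserving (R i) ν ν) (hfac : IsFactor μ (fun i => Φ (g i)) ν R)
    (P : Fin d → Fin n → MvPolynomial (Fin k) ℤ)
    (hP : ∀ i j, (P i j).totalDegree ≤ 1) (f : Fin n → Y → ℂ) (hf : ∀ j, MemLp (f j) ∞ ν) :
    (∀ᵐ y ∂ν, ∃ L : ℂ, Tendsto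
      (fun M : Fin k → ℕ => (∏ j, (M j : ℂ))⁻¹ *
        ∑ m ∈ Fintype.piFinset (fun j => Finset.range (M j)),
          ∏ j : Fin n, f j ((List.ofFn fun i : Fin d =>
            R i ^ (MvPolynomial.eval (fun l => ((m l : ℕ) : ℤ)) (P i j))).prod y))
      atTop (𝓝 L)) ∧
    ((∀ j, ∃ m m' : Fin k → ℕ, ∏ i, g i ^ (MvPolynomial.eval (fun l => ((m l : ℕ) : ℤ)) (P i j)) ≠
        ∏ i, g i ^ (MvPolynomial.eval (fun l => ((m' l : ℕ) : ℤ)) (P i j))) →
      (∀ j j', j ≠ j' → ∃ m m' : Fin k → ℕ,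
        ∏ i, g i ^ (MvPolynomial.eval (fun l => ((m l : ℕ) : ℤ)) (P i j - P i j')) ≠
        ∏ i, g i ^ (MvPolynomial.eval (fun l => ((m' l : ℕ) : ℤ)) (P i j - P i j'))) →
      ∀ᵐ y ∂ν, Tendsto
      (fun M : Fin k → ℕ => (∏ j, (M j : ℂ))⁻¹ *
        ∑ m ∈ Fintype.piFinset (fun j => Finset.range (M j)),
          ∏ j : Fin n, f j ((List.ofFn fun i : Fin d =>
            R i ^ (MvPolynomial.eval (fun l => ((m l : ℕ) : ℤ)) (P i j))).prod y))
      atTop (𝓝 (∏ j, ∫ y, f j y ∂ν))) := by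
  classical
  have hTm : ∀ i, MeasurePreserving (Φ (g i)) μ μ := fun i => hK.fl _
  have hT' : ∀ i, MeasurePreserving ((Φ (g i))⁻¹ : Equiv.Perm X) μ μ := fun i => by
    rw [← map_inv]
    exact hK.fl _
  constructor
  · refine Pool.Agent.TH784.AA.factor_gen hTm hT' hRm hR hfac
      (fun m i j => MvPolynomial.eval (fun l => ((m l : ℕ) : ℤ)) (P i j)) (fun F hF => ?_) hf
    have h1 := conv_all hK hinj (fun j => ∏ i, g i ^ MvPolynomial.coeff 0 (P i j))
      (fun j (l : Fin k) => ∏ i, g i ^ MvPolynomial.coeff (Finsupp.single l 1) (P i j)) hF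
    simp only [perm_prod, poly_el g _ fun i => hP i _]
    exact h1
  · intro hP1 hP2
    refine factor_const hTm hT' hRm hR hfac
      (fun m i j => MvPolynomial.eval (fun l => ((m l : ℕ) : ℤ)) (P i j)) (fun F hF => ?_) hf
    have h1 := conv_tr hK hinj (fun j => ∏ i, g i ^ MvPolynomial.coeff 0 (P i j))
      (fun j (l : Fin k) => ∏ i, g i ^ MvPolynomial.coeff (Finsupp.single l 1) (P i j))
      (fun j => by
        by_contra hcon
        push Not at hcon
        obtain ⟨m, m', hm⟩ := hP1 j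
        apply hm
        rw [poly_el g _ fun i => hP i _, poly_el g _ fun i => hP i _]
        exact el_congr fun l => Or.inr (hcon l))
      (fun j j' hjj' => by
        by_contra hcon
        push Not at hcon
        obtain ⟨m, m', hm⟩ := hP2 j j' hjj'
        apply hm
        have h2 : ∀ m : Fin k → ℕ,
            ∏ i, g i ^ (MvPolynomial.eval (fun l => ((m l : ℕ) : ℤ)) (P i j - P i j')) =
            (∏ i, g i ^ MvPolynomial.coeff 0 (P i j)) *
              (∏ i, g i ^ MvPolynomial.coeff 0 (P i j'))⁻¹ := by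
          intro m
          have h3 : ∏ i, g i ^ (MvPolynomial.eval (fun l => ((m l : ℕ) : ℤ)) (P i j - P i j')) =
              (∏ i, g i ^ (MvPolynomial.eval (fun l => ((m l : ℕ) : ℤ)) (P i j))) *
              (∏ i, g i ^ (MvPolynomial.eval (fun l => ((m l : ℕ) : ℤ)) (P i j')))⁻¹ := by
            rw [← Finset.prod_inv_distrib, ← Finset.prod_mul_distrib]
            refine Finset.prod_congr rfl fun i _ => ?_
            rw [map_sub, zpow_sub]
          rw [h3, poly_el g _ fun i => hP i _, poly_el g _ fun i => hP i _, el_split,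
            el_split (∏ i, g i ^ MvPolynomial.coeff 0 (P i j')), mul_inv]
          have h4 : (fun l => ∏ i, g i ^ MvPolynomial.coeff (Finsupp.single l 1) (P i j)) =
              fun l => ∏ i, g i ^ MvPolynomial.coeff (Finsupp.single l 1) (P i j') :=
            funext hcon
          rw [h4]
          exact mul_mul_mul_comm _ _ _ _ |>.trans (by rw [mul_inv_cancel, mul_one])
        rw [h2, h2])
      hF
    simp only [perm_prod, poly_el g _ fun i => hP i _]
    exact h1

end fac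

end Pool.Agent.Zk89.KB
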