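import Pool.Agent.TH784.KE.Multi

/-!
# Box averages of functions of some of the coordinates
-/

set_option autoImplicit false

open Filter Topology

noncomputable section

namespace Pool.Agent.Zk89.KB

open Pool.Agent.W761.Box (bxc)

theorem bxc_sub {k k' : ℕ} (e : Fin k' → Fin k) (he : Function.Injective e) {N : Fin k → ℕ}
    (hN : ∀ i, 0 < N i) (g : (Fin k' → ℕ) → ℂ) :
    bxc k N (fun m => g (fun i => m (e i))) = bxc k' (fun i => N (e i)) g := by
  classical
  unfold Pool.Agent.W761.Box.bxc
  set P := Fintype.piFinset (fun j => Finset.range (N j)) with hP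
  set P' := Fintype.piFinset (fun i => Finset.range (N (e i))) with hP'
  have hmap : ∀ m ∈ P, (fun i => m (e i)) ∈ P' := by
    intro m hm
    rw [hP, Fintype.mem_piFinset] at hm
    rw [hP', Fintype.mem_piFinset]
    exact fun i => hm (e i)
  rw [← Finset.sum_fiberwise_of_maps_to hmap]
  have hcard : ∀ m' ∈ P', ∑ m ∈ P with (fun i => m (e i)) = m', g (fun i => m (e i)) =
      ((∏ i, if i ∈ Finset.univ.image e then 1 else N i : ℕ) : ℂ) * g m' := by
    intro m' hm'
    have h1 : ∑ m ∈ P with (fun i => m (e i)) = m', g (fun i => m (e i)) =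
        ∑ m ∈ P with (fun i => m (e i)) = m', g m' := by
      refine Finset.sum_congr rfl fun m hm => ?_
      rw [(Finset.mem_filter.1 hm).2]
    rw [h1, Finset.sum_const, nsmul_eq_mul]
    congr 2
    have h2 : P.filter (fun m => (fun i => m (e i)) = m') =
        Fintype.piFinset (fun i => if h : ∃ i', e i' = i then {m' h.choose}
          else Finset.range (N i)) := by
      ext m
      rw [Finset.mem_filter, hP, Fintype.mem_piFinset, Fintype.mem_piFinset]
      constructor
      · rintro ⟨h3, h4⟩ i
        by_cases h : ∃ i', e i' = i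
        · rw [dif_pos h, Finset.mem_singleton]
          have h5 := congrFun h4 h.choose
          rw [h.choose_spec] at h5
          exact h5
        · rw [dif_neg h]
          exact h3 i
      · intro h3
        have h4 : (fun i => m (e i)) = m' := by
          funext i
          have h5 := h3 (e i)
          have h : ∃ i', e i' = e i := ⟨i, rfl⟩
          rw [dif_pos h, Finset.mem_singleton] at h5
          rw [h5]
          congr 1
          exact he h.choose_spec
        refine ⟨fun i => ?_, h4⟩
        by_cases h : ∃ i', e i' = i
        · obtain ⟨i', rfl⟩ := h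
          have h5 := congrFun h4 i'
          rw [h5]
          rw [hP', Fintype.mem_piFinset] at hm'
          exact hm' i'
        · have h5 := h3 i
          rw [dif_neg h] at h5
          exact h5
    rw [h2, Fintype.card_piFinset]
    refine Finset.prod_congr rfl fun i _ => ?_
    by_cases h : ∃ i', e i' = i
    · rw [dif_pos h, Finset.card_singleton, if_pos]
      obtain ⟨i', h'⟩ := h
      exact Finset.mem_image.2 ⟨i', Finset.mem_univ _, h'⟩
    · rw [dif_neg h, Finset.card_range, if_neg]
      intro h'
      obtain ⟨i', _, h''⟩ := Finset.mem_image.1 h'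
      exact h ⟨i', h''⟩
  rw [Finset.sum_congr rfl hcard, ← Finset.mul_sum]
  have hprod : (∏ j, (N j : ℂ)) = (∏ i, (N (e i) : ℂ)) *
      ((∏ i, if i ∈ Finset.univ.image e then 1 else N i : ℕ) : ℂ) := by
    have h3 : (∏ j, N j) = (∏ i, N (e i)) *
        (∏ i, if i ∈ Finset.univ.image e then 1 else N i) := by
      have h4 : ∏ i, N (e i) = ∏ i, (if i ∈ Finset.univ.image e then N i else 1) := by
        rw [Finset.prod_ite, Finset.prod_const_one, mul_one]
        have h5 : Finset.univ.filter (fun i => i ∈ Finset.univ.image e) =
            Finset.univ.image e := by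
          ext i
          simp
        rw [h5, Finset.prod_image fun x _ y _ h => he h]
      rw [h4, ← Finset.prod_mul_distrib]
      refine Finset.prod_congr rfl fun i _ => ?_
      split_ifs <;> simp
    have := congrArg (fun z : ℕ => (z : ℂ)) h3
    push_cast at this ⊢
    exact this
  rw [hprod]
  have hne : ((∏ i, if i ∈ Finset.univ.image e then 1 else N i : ℕ) : ℂ) ≠ 0 := by
    have : 0 < (∏ i, if i ∈ Finset.univ.image e then 1 else N i : ℕ) := by
      refine Finset.prod_pos fun i _ => ?_
      split_ifs
      · exact one_pos
      · exact hN i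
    exact_mod_cast this.ne'
  rw [mul_inv]
  field_simp

theorem tendsto_sub {k k' : ℕ} (e : Fin k' → Fin k) :
    Tendsto (fun (N : Fin k → ℕ) (i : Fin k') => N (e i)) atTop atTop := by
  refine tendsto_atTop_atTop.2 fun b => ?_
  refine ⟨fun _ => ∑ i, b i, fun N hN i => ?_⟩
  exact (Finset.single_le_sum (fun i _ => Nat.zero_le (b i)) (Finset.mem_univ i)).trans
    (hN (e i))

end Pool.Agent.Zk89.KB
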