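import Pool.Agent.TH784.KE.Multi
import Pool.Agent.TH784.AA.Fin
import Pool.Agent.Zk89.KB.Sub

/-!
# Unrestricted box averages: Kolmogorov actions and Kolmogorov extensions
-/

set_option autoImplicit false
set_option linter.unusedSectionVars false

open MeasureTheory Filter Topology
open scoped ENNReal

noncomputable section

namespace Pool.Agent.Zk89.KB

open Pool.Agent.W761.Box (bx bxc BM Good1 bxc_add bxc_sub bxc_mul dz orb good1 Cv)
open Pool.Agent.TH784.KE

variable {X : Type*} {mA mY mX : MeasurableSpace X} {μ : Measure X} [IsProbabilityMeasure μ]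
variable {G : Type*} [Group G]
variable {Φ : G →* Equiv.Perm X} {ℓ : G → ℝ}
variable {J : Type*} [DecidableEq J] [Fintype J] {k : ℕ}

/-- the element `c a_1^{n_1} ⋯ a_k^{n_k}` -/
def el (c : G) (a : Fin k → G) (n : Fin k → ℕ) : G :=
  c * (List.ofFn fun l => a l ^ n l).prod

theorem el_orb (c : G) (a : Fin k → G) (n : Fin k → ℕ) (x : X) :
    Φ (el c a n) x = Φ c (orb k (fun l => (Φ (a l) : X → X)) n x) := by
  unfold el
  rw [map_mul, Equiv.Perm.mul_apply]
  congr 1
  induction k with
  | zero => simp [orb]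
  | succ k ih =>
    rw [List.ofFn_succ, List.prod_cons, map_mul, Equiv.Perm.mul_apply,
      ih (fun l => a l.succ) (fun l => n l.succ), map_pow]
    show _ = (Φ (a 0) : X → X)^[n 0] (orb k (Fin.tail fun l => (Φ (a l) : X → X)) (Fin.tail n) x)
    rw [← Equiv.Perm.coe_pow]
    rfl

theorem good_el (hFl : Flow μ Φ) (c : G) (a : Fin k → G) :
    Good1 μ (fun n : Fin k → ℕ => (Φ (el c a n) : X → X)) := by
  intro H hH hb
  obtain ⟨C, hC⟩ := hb
  have h1 := dz k (fun l => (Φ (a l) : X → X)) (fun l => hFl _) (fun x => H (Φ c x))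
    (hH.comp (hFl c).measurable) C fun x => hC _
  filter_upwards [h1] with x hx
  obtain ⟨L, hL⟩ := hx
  refine ⟨L, hL.congr fun N => ?_⟩
  congr 1
  funext m
  rw [el_orb]

theorem ell_el (hA : Filt mX mA Φ ℓ) (c : G) (a : Fin k → G) (n : Fin k → ℕ) :
    ℓ (el c a n) = ℓ c + ∑ l, n l • ℓ (a l) := by
  unfold el
  rw [hA.hom]
  congr 1
  have h1 : ℓ 1 = 0 := by
    have := hA.hom 1 1
    rw [mul_one] at this
    linarith
  induction k with
  | zero => simp [h1]
  | succ k ih =>
    rw [List.ofFn_succ, List.prod_cons, hA.hom, hA.pow, Fin.sum_univ_succ,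
      ih (fun l => a l.succ) (fun l => n l.succ), nsmul_eq_mul]

theorem el_congr {c : G} {a : Fin k → G} {n n' : Fin k → ℕ}
    (h : ∀ l, n l = n' l ∨ a l = 1) : el c a n = el c a n' := by
  unfold el
  congr 3
  funext l
  rcases h l with h | h
  · rw [h]
  · rw [h, one_pow, one_pow]

theorem bxc_sum {k : ℕ} (N : Fin k → ℕ) {ι : Type*} (s : Finset ι)
    (a : ι → (Fin k → ℕ) → ℂ) :
    bxc k N (fun m => ∑ i ∈ s, a i m) = ∑ i ∈ s, bxc k N (a i) := by
  unfold Pool.Agent.W761.Box.bxc
  rw [Finset.sum_comm, Finset.mul_sum]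

/-- expansion of the product -/
theorem expand {g : J → (Fin k → ℕ) → X → X} {f e : J → X → ℂ}
    (h : ∀ t : Finset J, t.Nonempty → Cz μ g
      (fun j => if j ∈ t then (fun x => f j x - e j x) else e j)) :
    ∀ᵐ x ∂μ, Tendsto (fun N => bxc k N fun n => (∏ j, f j (g j n x) -
      ∏ j, e j (g j n x))) atTop (𝓝 0) := by
  classical
  have hall : ∀ᵐ x ∂μ, ∀ t : Finset J, t.Nonempty → Tendsto (fun N => bxc k N fun n =>
      (∏ j ∈ t, (f j (g j n x) - e j (g j n x))) *
        ∏ j ∈ Finset.univ \ t, e j (g j n x)) atTop (𝓝 0) := by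
    rw [ae_all_iff]
    intro t
    by_cases ht : t.Nonempty
    · filter_upwards [h t ht] with x hx _
      refine hx.congr fun N => ?_
      congr 1
      funext n
      rw [← Finset.prod_mul_prod_compl t, ← Finset.compl_eq_univ_sdiff]
      congr 1
      · refine Finset.prod_congr rfl fun j hj => ?_
        rw [if_pos hj]
      · refine Finset.prod_congr rfl fun j hj => ?_
        rw [if_neg (Finset.mem_compl.1 hj)]
    · exact Eventually.of_forall fun x h => absurd h ht
  filter_upwards [hall] with x hx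
  have hsum := tendsto_finsetSum ((Finset.univ : Finset J).powerset.erase ∅) fun t ht =>
    hx t (Finset.nonempty_of_ne_empty (Finset.ne_of_mem_erase ht))
  rw [Finset.sum_const_zero] at hsum
  refine hsum.congr fun N => ?_
  rw [← bxc_sum]
  congr 1
  funext n
  have h1 := Finset.prod_add (fun j => f j (g j n x) - e j (g j n x))
    (fun j => e j (g j n x)) (Finset.univ : Finset J)
  have h2 : ∏ j, (f j (g j n x) - e j (g j n x) + e j (g j n x)) =
      ∏ j, f j (g j n x) := Finset.prod_congr rfl fun j _ => by ring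
  rw [h2, ← Finset.add_sum_erase _ _ (Finset.empty_mem_powerset _)] at h1
  rw [h1, Finset.prod_empty, one_mul, Finset.sdiff_empty]
  ring

theorem exists_pos (hA : Filt mX mA Φ ℓ) {b : G} (hb : ℓ b ≠ 0) : ∃ s₀ : G, 0 < ℓ s₀ := by
  rcases lt_or_gt_of_ne hb with h | h
  · exact ⟨b⁻¹, by rw [hA.inv]; linarith⟩
  · exact ⟨b, h⟩

/-- **The base is characteristic**, for forms depending on all parameters. -/
theorem char_box (hk : 0 < k) (hK : KExt μ mA mY Φ ℓ) (c : J → G) (a : J → Fin k → G)
    (ha0 : ∀ j l, ℓ (a j l) ≠ 0) (ha : ∀ i j, i ≠ j → ∃ l, ℓ (a i l) ≠ ℓ (a j l))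
    {f e : J → X → ℂ}
    (hf : ∀ j, @BM X mX (f j)) (he : ∀ j, @BM X mX (e j)) (heY : ∀ j, Measurable[mY] (e j))
    (hfe : ∀ j, ∀ B : Set X, MeasurableSet[mY] B → ∫ x in B, (f j x - e j x) ∂μ = 0) :
    ∀ᵐ x ∂μ, Tendsto (fun N => bxc k N fun n => (∏ j, f j (Φ (el (c j) (a j) n) x) -
      ∏ j, e j (Φ (el (c j) (a j) n) x))) atTop (𝓝 0) := by
  classical
  refine expand (g := fun j n => (Φ (el (c j) (a j) n) : X → X)) fun t ht => ?_
  obtain ⟨j₀, hj₀⟩ := ht
  obtain ⟨s₀, hs₀⟩ := exists_pos hK.filt (ha0 j₀ ⟨0, hk⟩)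
  exact zero_complex (S := t) (q := fun n j => el (c j) (a j) n) (lam := fun j => ℓ (c j))
      (θ := fun j l => ℓ (a j l)) hk hK hs₀
      (fun n v => by
        rw [ell_el hK.filt]
        rfl)
      (fun v _ l h => absurd h (ha0 v l)) (fun l => ⟨j₀, hj₀, ha0 j₀ l⟩)
      (fun v _ w _ hvw => ha v w hvw) (fun v => good_el hK.fl (c v) (a v))
      (F := fun j => if j ∈ t then (fun x => f j x - e j x) else e j) (fun v => by
        by_cases hv : v ∈ t
        · simp only [hv, if_true]
          obtain ⟨m₁, C₁, b₁⟩ := hf v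
          obtain ⟨m₂, C₂, b₂⟩ := he v
          exact ⟨⟨m₁.sub m₂, C₁ + C₂, fun x => (norm_sub_le _ _).trans
            (add_le_add (b₁ x) (b₂ x))⟩, fun _ => hfe v, fun h => absurd hv h⟩
        · simp only [hv, if_false]
          exact ⟨he v, fun h => absurd h hv, fun _ => heY v⟩)

/-- Kolmogorov actions: convergence to zero. -/
theorem zero_tr (hK : KExt μ mA ⊥ Φ ℓ) (hinj : ∀ g : G, ℓ g = 0 → g = 1)
    (c : J → G) (a : J → Fin k → G) {S : Finset J} (hS : S.Nonempty)
    (ha0 : ∀ j ∈ S, ∃ l, a j l ≠ 1) (ha : ∀ i ∈ S, ∀ j ∈ S, i ≠ j → ∃ l, a i l ≠ a j l)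
    {F : J → X → ℂ} (hF : ∀ v, @BM X mX (F v)) (hF0 : ∀ v ∈ S, ∫ x, F v x ∂μ = 0)
    (hFc : ∀ v ∉ S, ∃ κ : ℂ, F v = fun _ => κ) :
    Cz μ (fun v n => (Φ (el (c v) (a v) n) : X → X)) F := by
  classical
  have hℓ1 : ℓ 1 = 0 := by
    have := hK.filt.hom 1 1
    rw [mul_one] at this
    linarith
  have hinj' : ∀ g h : G, ℓ g = ℓ h → g = h := by
    intro g h hgh
    have : ℓ (g * h⁻¹) = 0 := by
      rw [hK.filt.hom, hK.filt.inv]
      linarith
    exact mul_inv_eq_one.1 (hinj _ this)
  set L : Finset (Fin k) := Finset.univ.filter fun l => ∃ v ∈ S, a v l ≠ 1 with hL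
  set e : Fin L.card → Fin k := fun i => L.orderEmbOfFin rfl i with he
  have heinj : Function.Injective e := (L.orderEmbOfFin rfl).injective
  have hrange : ∀ l, l ∈ L → ∃ i, e i = l := by
    intro l hl
    have : l ∈ Set.range (L.orderEmbOfFin rfl) := by
      rw [Finset.range_orderEmbOfFin]
      exact hl
    exact this
  have hmem : ∀ i, e i ∈ L := fun i => Finset.orderEmbOfFin_mem L rfl i
  obtain ⟨j₀, hj₀⟩ := hS
  obtain ⟨l₀, hl₀⟩ := ha0 j₀ hj₀
  have hL0 : 0 < L.card := Finset.card_pos.2 ⟨l₀, Finset.mem_filter.2 ⟨Finset.mem_univ _, j₀, hj₀, hl₀⟩⟩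
  obtain ⟨s₀, hs₀⟩ := exists_pos hK.filt (fun h => hl₀ (hinj _ h) : ℓ (a j₀ l₀) ≠ 0)
  have hz := zero_complex (S := S) (q := fun n j => el (c j) (fun i => a j (e i)) n)
      (lam := fun j => ℓ (c j)) (θ := fun j i => ℓ (a j (e i))) hL0 hK hs₀
      (fun n v => by
        rw [ell_el hK.filt]
        rfl)
      (fun v _ l h n t => by
        apply el_congr
        intro i
        by_cases hi : i = l
        · right
          rw [hi]
          exact hinj _ h
        · left
          rw [Function.update_of_ne hi])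
      (fun l => by
        obtain ⟨v, hv, h⟩ := (Finset.mem_filter.1 (hmem l)).2
        exact ⟨v, hv, fun h' => h (hinj _ h')⟩)
      (fun v hv w hw hvw => by
        obtain ⟨l, hl⟩ := ha v hv w hw hvw
        have hlL : l ∈ L := by
          rw [hL, Finset.mem_filter]
          refine ⟨Finset.mem_univ _, ?_⟩
          by_contra hcon
          push Not at hcon
          exact hl ((hcon v hv).trans (hcon w hw).symm)
        obtain ⟨i, rfl⟩ := hrange l hlL
        exact ⟨i, fun h => hl (hinj' _ _ h)⟩)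
      (fun v => good_el hK.fl (c v) _)
      (F := F) (fun v => by
        refine ⟨hF v, fun hv B hB => ?_, fun hv => ?_⟩
        · rcases (MeasurableSpace.measurableSet_bot_iff.1 hB) with h | h
          · rw [h]
            simp
          · rw [h, setIntegral_univ]
            exact hF0 v hv
        · obtain ⟨κ, h⟩ := hFc v hv
          rw [h]
          exact measurable_const)
  filter_upwards [hz] with x hx
  have h1 := hx.comp (tendsto_sub e)
  have hval : ∀ (v : J) (n : Fin k → ℕ), F v (Φ (el (c v) (a v) n) x) =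
      F v (Φ (el (c v) (fun i => a v (e i)) (fun i => n (e i))) x) := by
    intro v n
    by_cases hv : v ∈ S
    · congr 3
      apply hinj'
      rw [ell_el hK.filt, ell_el hK.filt]
      congr 1
      have h3 : ∑ l, n l • ℓ (a v l) = ∑ l ∈ Finset.univ.image e, n l • ℓ (a v l) := by
        refine (Finset.sum_subset (Finset.subset_univ _) fun l _ hl => ?_).symm
        have h4 : a v l = 1 := by
          by_contra hcon
          have hlL : l ∈ L := Finset.mem_filter.2 ⟨Finset.mem_univ _, v, hv, hcon⟩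
          obtain ⟨i, hi⟩ := hrange l hlL
          exact hl (Finset.mem_image.2 ⟨i, Finset.mem_univ _, hi⟩)
        rw [h4, hℓ1, smul_zero]
      rw [h3, Finset.sum_image fun x _ y _ h => heinj h]
    · obtain ⟨κ, h⟩ := hFc v hv
      rw [h]
  refine h1.congr' ?_
  filter_upwards [eventually_ge_atTop (fun _ : Fin k => 1)] with N hN
  rw [Function.comp_apply]
  have h2 := bxc_sub e heinj (N := N) (fun i => hN i)
    (fun n => ∏ v, F v (Φ (el (c v) (fun i => a v (e i)) n) x))
  rw [← h2]
  congr 1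
  funext n
  exact Finset.prod_congr rfl fun v _ => (hval v n).symm

/-- Kolmogorov actions: distinct nonconstant forms, the limit is the product of the integrals. -/
theorem conv_tr (hK : KExt μ mA ⊥ Φ ℓ) (hinj : ∀ g : G, ℓ g = 0 → g = 1)
    (c : J → G) (a : J → Fin k → G)
    (ha0 : ∀ j, ∃ l, a j l ≠ 1) (ha : ∀ i j, i ≠ j → ∃ l, a i l ≠ a j l)
    {F : J → X → ℂ} (hF : ∀ v, @BM X mX (F v)) :
    ∀ᵐ x ∂μ, Tendsto (fun N => bxc k N fun n => ∏ j, F j (Φ (el (c j) (a j) n) x)) atTop
      (𝓝 (∏ j, ∫ x, F j x ∂μ)) := by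
  classical
  have h1 := expand (μ := μ) (g := fun j n => (Φ (el (c j) (a j) n) : X → X)) (f := F)
    (e := fun j _ => ∫ x, F j x ∂μ) fun t ht => by
      refine zero_tr hK hinj c a ht (fun j _ => ha0 j) (fun i _ j _ h => ha i j h) ?_ ?_ ?_
      · intro v
        obtain ⟨hm, C, hC⟩ := hF v
        by_cases hv : v ∈ t
        · simp only [hv, if_true]
          exact ⟨hm.sub measurable_const, C + ‖∫ x, F v x ∂μ‖, fun x =>
            (norm_sub_le _ _).trans (add_le_add (hC x) le_rfl)⟩
        · simp only [hv, if_false]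
          exact ⟨measurable_const, ‖∫ x, F v x ∂μ‖, fun x => le_rfl⟩
      · intro v hv
        obtain ⟨hm, C, hC⟩ := hF v
        simp only [hv, if_true]
        have hi : Integrable (F v) μ := Integrable.of_bound hm.aestronglyMeasurable C
          (Eventually.of_forall hC)
        rw [integral_sub hi (integrable_const _), integral_const, probReal_univ, one_smul,
          sub_self]
      · intro v hv
        exact ⟨∫ x, F v x ∂μ, by simp only [hv, if_false]⟩
  filter_upwards [h1] with x hx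
  have h2 := hx.add (tendsto_const_nhds (x := ∏ j, ∫ x, F j x ∂μ))
  rw [zero_add] at h2
  refine h2.congr' ?_
  filter_upwards [eventually_ge_atTop (fun _ : Fin k => 1)] with N hN
  have h3 : ∏ j, ∫ x, F j x ∂μ = bxc k N fun _ => ∏ j, ∫ x, F j x ∂μ := by
    unfold Pool.Agent.W761.Box.bxc
    rw [Finset.sum_const, nsmul_eq_mul, Fintype.card_piFinset]
    have h4 : (∏ j, (N j : ℂ)) ≠ 0 := Finset.prod_ne_zero_iff.2 fun j _ => by
      have := hN j
      have h5 : (1 : ℕ) ≤ N j := this
      exact_mod_cast (by omega : N j ≠ 0)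
    simp only [Finset.card_range]
    push_cast
    field_simp
  nth_rewrite 2 [h3]
  rw [← bxc_add]
  congr 1
  funext n
  ring

end Pool.Agent.Zk89.KB
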